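import Pool.Agent.L7h10.AB.Stm

/-!
Assembly of project AB.
-/

namespace Pool.Agent.L7h10.AB

theorem ncen_four (hC : S_COL) (hI : S_INJ) (hF : S_FIX) (hD : S_DESD) (hE : S_DESC)
    (hP : S_CNTP) (hQ : S_CNTF) (hB : S_BRG) (K : Type) [Field K] [Finite K] (p : ℕ) [CharP K p]
    (hp : 5 < p) :
    Ncen K 4 = (Nat.card K - 1) * (Nat.card K ^ 2 - Nat.card K + 2) := by
  rw [hB K p hp]
  exact hQ hP hI K p hp
    (fun b c d => Dbl (algebraMap K (AlgebraicClosure K) b) (algebraMap K (AlgebraicClosure K) c)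
      (algebraMap K (AlgebraicClosure K) d))
    (fun b c d => hD hI hF K p hp b c d)
    (fun b c d => Col (algebraMap K (AlgebraicClosure K) b) (algebraMap K (AlgebraicClosure K) c)
      (algebraMap K (AlgebraicClosure K) d))
    (fun b c d => hE hC hI hF K p hp b c d)

theorem small (hT : S_TRANS) (hS : S_SMALL) (h3 : S_THREEA) (h3' : S_THREEB)
    (hC : S_COL) (hI : S_INJ) (hF : S_FIX) (hD : S_DESD) (hE : S_DESC)
    (hP : S_CNTP) (hQ : S_CNTF) (hB : S_BRG) (K : Type) [Field K] [Finite K] (p : ℕ)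
    [CharP K p] :
    (2 < p → N K 1 = Nat.card K) ∧
    (3 < p → N K 2 = Nat.card K * (Nat.card K - 1)) ∧
    (4 < p → N K 3 = Nat.card K * (Nat.card K - 1) ^ 2) ∧
    (5 < p → N K 4 = Nat.card K * (Nat.card K - 1) * (Nat.card K ^ 2 - Nat.card K + 2)) := by
  refine ⟨fun hp => ?_, fun hp => ?_, fun hp => ?_, fun hp => ?_⟩
  · rw [hT K p 1 le_rfl (by omega), (hS K p).1 hp, mul_one]
  · rw [hT K p 2 (by norm_num) (by omega), (hS K p).2 hp]
  · rw [hT K p 3 (by norm_num) (by omega), h3' h3 K p hp]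
  · rw [hT K p 4 (by norm_num) (by omega), ncen_four hC hI hF hD hE hP hQ hB K p hp, mul_assoc]

theorem divis (hT : S_TRANS) (hV : S_DIVQ) (K : Type) [Field K] [Finite K] (p : ℕ)
    [CharP K p] (n : ℕ) (hn : 2 ≤ n) (hp : n + 1 < p) :
    Nat.card K * (Nat.card K - 1) ∣ N K n := by
  rw [hT K p n (by omega) hp]
  exact mul_dvd_mul_left _ (hV K p n hn hp)

end Pool.Agent.L7h10.AB
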