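import Pool.Agent.L7h10.AB.Stm

/-!
Part COL of project AB.
-/

namespace Pool.Agent.L7h10.AB

theorem s_COL : S_COL := by
  intro L _ _ h2 h3 h5 b c d
  have h4 : (4 : L) ≠ 0 := by
    have : (4 : L) = 2 * 2 := by norm_num
    rw [this]; exact mul_ne_zero h2 h2
  constructor
  · rintro ⟨hnd, r, s, hrs, hr, hs, hG⟩
    have hrs0 : r - s ≠ 0 := sub_ne_zero.mpr hrs
    -- parameters
    obtain ⟨m, hm⟩ : ∃ m : L, 2 * m = r + s := ⟨(r + s) / 2, by field_simp⟩
    obtain ⟨h, hh⟩ : ∃ h : L, 2 * h = r - s := ⟨(r - s) / 2, by field_simp⟩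
    have hr' : r = m + h := by
      have : (2 : L) * (r - (m + h)) = 0 := by linear_combination -hm - hh
      rcases mul_eq_zero.mp this with h' | h'
      · exact absurd h' h2
      · linear_combination h'
    have hs' : s = m - h := by
      have : (2 : L) * (s - (m - h)) = 0 := by linear_combination -hm + hh
      rcases mul_eq_zero.mp this with h' | h'
      · exact absurd h' h2
      · linear_combination h'
    subst hr'; subst hs'
    have hh0 : h ≠ 0 := by
      intro h0; apply hrs0; rw [h0]; ring
    obtain ⟨e, he⟩ : ∃ e : L, 5 * e = h ^ 2 := ⟨h ^ 2 / 5, by field_simp⟩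
    -- clear denominators in G
    have hG' : 6 * (m + h) ^ 5 + 10 * b * (m + h) ^ 3 + 15 * c * (m + h) ^ 2 + 30 * d * (m + h) =
        6 * (m - h) ^ 5 + 10 * b * (m - h) ^ 3 + 15 * c * (m - h) ^ 2 + 30 * d * (m - h) := by
      field_simp at hG
      linear_combination hG
    -- difference of the two roots
    have hdiff : 4 * m ^ 3 + 4 * m * h ^ 2 + 2 * b * m + c = 0 := by
      have : (2 * h) * (4 * m ^ 3 + 4 * m * h ^ 2 + 2 * b * m + c) = 0 := by
        linear_combination hr - hs
      rcases mul_eq_zero.mp this with h' | h'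
      · exact absurd h' (mul_ne_zero h2 hh0)
      · exact h'
    have hsum : m ^ 4 + 6 * m ^ 2 * h ^ 2 + h ^ 4 + b * (m ^ 2 + h ^ 2) + c * m + d = 0 := by
      have : (2 : L) * (m ^ 4 + 6 * m ^ 2 * h ^ 2 + h ^ 4 + b * (m ^ 2 + h ^ 2) + c * m + d) = 0 := by
        linear_combination hr + hs
      rcases mul_eq_zero.mp this with h' | h'
      · exact absurd h' h2
      · exact h'
    have hGG : 6 * (5 * m ^ 4 + 10 * m ^ 2 * h ^ 2 + h ^ 4) + 10 * b * (3 * m ^ 2 + h ^ 2) +
        30 * c * m + 30 * d = 0 := by
      have : (2 * h) * (6 * (5 * m ^ 4 + 10 * m ^ 2 * h ^ 2 + h ^ 4) + 10 * b * (3 * m ^ 2 + h ^ 2) +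
        30 * c * m + 30 * d) = 0 := by
        linear_combination hG'
      rcases mul_eq_zero.mp this with h' | h'
      · exact absurd h' (mul_ne_zero h2 hh0)
      · exact h'
    have hb : b = -6 * (m ^ 2 + e) := by
      have : (2 * 2 * 5 * h ^ 2) * (b + 6 * (m ^ 2 + e)) = 0 := by
        linear_combination 30 * hsum - hGG + 24 * h ^ 2 * he
      rcases mul_eq_zero.mp this with h' | h'
      · exact absurd h' (mul_ne_zero (mul_ne_zero (mul_ne_zero h2 h2) h5) (pow_ne_zero 2 hh0))
      · linear_combination h'
    subst hb
    have hc : c = 8 * m * (m ^ 2 - e) := by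
      linear_combination hdiff + 4 * m * he
    subst hc
    have hd : d = -(m ^ 2 - 5 * e) * (3 * m ^ 2 + e) := by
      have e4 : h ^ 4 = 25 * e ^ 2 := by
        have : h ^ 4 = (h ^ 2) ^ 2 := by ring
        rw [this, ← he]; ring
      rw [e4, ← he] at hsum
      linear_combination hsum
    refine ⟨m, e, ⟨?_, ?_, ?_⟩, rfl, rfl, hd⟩
    · intro h0
      rw [h0, mul_zero] at he
      exact hh0 (pow_eq_zero_iff two_ne_zero |>.mp he.symm)
    · intro h0
      apply hnd
      refine ⟨-m, ?_, ?_⟩
      · rw [hd, h0]; ring
      · rw [h0]; ring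
    · intro h0
      apply hnd
      refine ⟨-4 * m, ?_, ?_⟩
      · rw [hd, h0]; ring
      · rw [h0]; ring
  · rintro ⟨m, e, ⟨he0, he1, he2⟩, rfl, rfl, rfl⟩
    refine ⟨?_, ?_⟩
    · rintro ⟨r, hr, hr'⟩
      have hA : ((r - m) ^ 2 - 5 * e) * (r ^ 2 + 2 * m * r - (3 * m ^ 2 + e)) = 0 := by
        linear_combination hr
      have hA' : 2 * (r - m) * (r ^ 2 + 2 * m * r - (3 * m ^ 2 + e)) +
          ((r - m) ^ 2 - 5 * e) * (2 * r + 2 * m) = 0 := by
        linear_combination hr'
      rcases mul_eq_zero.mp hA with h | h
      · rw [h, zero_mul, add_zero] at hA'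
        rcases mul_eq_zero.mp hA' with h' | h'
        · rcases mul_eq_zero.mp h' with h'' | h''
          · exact h2 h''
          · rw [h''] at h
            apply mul_ne_zero h5 he0
            linear_combination -h
        · -- both factors vanish
          have h7 : (4 : L) * (m * r - m ^ 2 + e) = 0 := by linear_combination h' - h
          have h8 : m * r - m ^ 2 + e = 0 := by
            rcases mul_eq_zero.mp h7 with h9 | h9
            · exact absurd h9 h4
            · exact h9
          have h10 : e * (e - 5 * m ^ 2) = 0 := by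
            linear_combination m ^ 2 * h + (-(m * r) + m ^ 2 + e) * h8
          rcases mul_eq_zero.mp h10 with h11 | h11
          · exact he0 h11
          · exact he2 (by linear_combination h11)
      · rw [h, mul_zero, zero_add] at hA'
        rcases mul_eq_zero.mp hA' with h' | h'
        · have h7 : (4 : L) * (m * r - m ^ 2 + e) = 0 := by linear_combination h - h'
          have h8 : m * r - m ^ 2 + e = 0 := by
            rcases mul_eq_zero.mp h7 with h9 | h9
            · exact absurd h9 h4
            · exact h9
          have h10 : e * (e - 5 * m ^ 2) = 0 := by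
            linear_combination m ^ 2 * h' + (-(m * r) + m ^ 2 + e) * h8
          rcases mul_eq_zero.mp h10 with h11 | h11
          · exact he0 h11
          · exact he2 (by linear_combination h11)
        · have h7 : r = -m := by
            have : (2 : L) * (r + m) = 0 := by linear_combination h'
            rcases mul_eq_zero.mp this with h9 | h9
            · exact absurd h9 h2
            · linear_combination h9
          subst h7
          apply he1
          linear_combination -h
    · obtain ⟨h, hh⟩ := IsAlgClosed.exists_pow_nat_eq (5 * e) (n := 2) (by norm_num)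
      have hh0 : h ≠ 0 := by
        intro h0
        rw [h0] at hh
        apply mul_ne_zero h5 he0
        rw [← hh]; ring
      refine ⟨m + h, m - h, ?_, ?_, ?_, ?_⟩
      · intro h0
        apply mul_ne_zero h2 hh0
        linear_combination h0
      · have : h ^ 2 - 5 * e = 0 := by rw [hh]; ring
        linear_combination (h ^ 2 + 4 * m * h - e) * this
      · have : h ^ 2 - 5 * e = 0 := by rw [hh]; ring
        linear_combination (h ^ 2 - 4 * m * h - e) * this
      · have he' : e = h ^ 2 / 5 := by rw [hh]; field_simp
        subst he'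
        field_simp
        ring

end Pool.Agent.L7h10.AB
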