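import Pool.Agent.L7h10.AB.Stm

/-!
Part INJ of project AB: uniqueness of the parameters.
-/

namespace Pool.Agent.L7h10.AB

theorem s_INJ : S_INJ := by
  intro L _ h2 h3 h5
  refine ⟨?_, ?_⟩
  · rintro m e m' e' b c d ⟨h1, hc, hd⟩ ⟨h1', hc', hd'⟩
    have h6 : (6 : L) ≠ 0 := by
      have : (6 : L) = 2 * 3 := by norm_num
      rw [this]; exact mul_ne_zero h2 h3
    have hS : m ^ 2 + e = m' ^ 2 + e' := by
      have : (6 : L) * ((m ^ 2 + e) - (m' ^ 2 + e')) = 0 := by linear_combination h1 - h1'
      rcases mul_eq_zero.mp this with h | h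
      · exact absurd h h6
      · linear_combination h
    have h8 : (8 : L) ≠ 0 := by
      have : (8 : L) = 2 * 2 * 2 := by norm_num
      rw [this]; exact mul_ne_zero (mul_ne_zero h2 h2) h2
    have hC : m * (m ^ 2 - e) = m' * (m' ^ 2 - e') := by
      have : (8 : L) * (m * (m ^ 2 - e) - m' * (m' ^ 2 - e')) = 0 := by
        linear_combination hc' - hc
      rcases mul_eq_zero.mp this with h | h
      · exact absurd h h8
      · linear_combination h
    have hD : (m ^ 2 - 5 * e) * (3 * m ^ 2 + e) = (m' ^ 2 - 5 * e') * (3 * m' ^ 2 + e') := by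
      linear_combination hd - hd'
    have he' : e' = m ^ 2 + e - m' ^ 2 := by linear_combination -hS
    subst he'
    by_cases hm : m = m'
    · left; subst hm; refine ⟨rfl, by ring⟩
    right
    have hm0 : m - m' ≠ 0 := sub_ne_zero.mpr hm
    have e1 : m ^ 2 + e = 2 * (m ^ 2 + m * m' + m' ^ 2) := by
      have : (m - m') * (2 * (m ^ 2 + m * m' + m' ^ 2) - (m ^ 2 + e)) = 0 := by
        linear_combination hC
      rcases mul_eq_zero.mp this with h | h
      · exact absurd h hm0
      · linear_combination -h
    have he : e = m ^ 2 + 2 * m * m' + 2 * m' ^ 2 := by linear_combination e1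
    subst he
    have h4 : (4 : L) ≠ 0 := by
      have : (4 : L) = 2 * 2 := by norm_num
      rw [this]; exact mul_ne_zero h2 h2
    have e2 : (4 : L) * ((m - m') * ((m + m') * (m - m') ^ 2)) = 0 := by
      linear_combination hD
    rcases mul_eq_zero.mp e2 with h | h
    · exact absurd h h4
    rcases mul_eq_zero.mp h with h | h
    · exact absurd h hm0
    rcases mul_eq_zero.mp h with h | h
    · have hm' : m' = -m := by linear_combination h
      subst hm'
      refine ⟨rfl, by ring, by ring⟩
    · exact absurd (pow_eq_zero_iff (two_ne_zero) |>.mp h) hm0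
  · rintro u w u' w' b c d ⟨h1, hc, hd⟩ ⟨h1', hc', hd'⟩
    have hw' : w' = w - 3 * u ^ 2 + 3 * u' ^ 2 := by linear_combination h1 - h1'
    subst hw'
    by_cases hm : u = u'
    · left; subst hm; refine ⟨rfl, by ring⟩
    right
    have hm0 : u - u' ≠ 0 := sub_ne_zero.mpr hm
    have e1 : w = u ^ 2 - 2 * u * u' - 2 * u' ^ 2 := by
      have : (2 : L) * ((u - u') * ((u ^ 2 - 2 * u * u' - 2 * u' ^ 2) - w)) = 0 := by
        linear_combination hc' - hc
      rcases mul_eq_zero.mp this with h | h
      · exact absurd h h2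
      rcases mul_eq_zero.mp h with h | h
      · exact absurd h hm0
      · linear_combination -h
    subst e1
    have e2 : (u - u') ^ 3 * (u + u') = 0 := by
      linear_combination hd' - hd
    rcases mul_eq_zero.mp e2 with h | h
    · exact absurd (pow_eq_zero_iff (three_ne_zero) |>.mp h) hm0
    · have hm' : u' = -u := by linear_combination h
      subst hm'
      refine ⟨rfl, by ring, by ring⟩

end Pool.Agent.L7h10.AB
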