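import Pool.Agent.L7h10.AB.Upp

/-!
A splitting lemma for cardinalities (project AB).
-/

namespace Pool.Agent.L7h10.AB

theorem card_split {Z : Type} [Finite Z] (E P Q : Z → Prop) (h : ∀ z, E z → P z ∨ Q z) :
    Nat.card {z : Z // E z} ≤ Nat.card {z : Z // P z} + Nat.card {z : Z // Q z} := by
  rw [← Nat.card_sum]
  refine card_le_of_cover (T := {z : Z // E z}) E
    (Sum.elim (fun z : {z : Z // P z} => z.1) (fun z : {z : Z // Q z} => z.1)) ?_ (Equiv.refl _)
  intro z hz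
  rcases h z hz with h1 | h1
  · exact ⟨Sum.inl ⟨z, h1⟩, rfl⟩
  · exact ⟨Sum.inr ⟨z, h1⟩, rfl⟩

end Pool.Agent.L7h10.AB
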