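import Mathlib

/-!
Simply branched antiderivatives of monic polynomials over finite fields: definitions and the
statements of the parts (project AB).
-/

namespace Pool.Agent.L7h10.AB

open Polynomial

/-- The antiderivative of `f` with constant term zero (used for small degree compared with the
characteristic). -/
noncomputable def prim {K : Type} [Field K] (f : K[X]) : K[X] :=
  ∑ i ∈ Finset.range (f.natDegree + 1), C (f.coeff i / ((i : K) + 1)) * X ^ (i + 1)

/-- `f` has only simple roots in an algebraic closure and its antiderivative takes different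
values at different roots of `f`. -/
def SB {K : Type} [Field K] (f : K[X]) : Prop :=
  (∀ r : AlgebraicClosure K, aeval r f = 0 → aeval r (derivative f) ≠ 0) ∧
  ∀ r s : AlgebraicClosure K, aeval r f = 0 → aeval s f = 0 →
    aeval r (prim f) = aeval s (prim f) → r = s

/-- The number of monic polynomials of degree `n` whose antiderivative is simply branched. -/
noncomputable def N (K : Type) [Field K] (n : ℕ) : ℕ :=
  Nat.card {f : K[X] // f.Monic ∧ f.natDegree = n ∧ SB f}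

/-- The number of those without term of degree `n - 1`. -/
noncomputable def Ncen (K : Type) [Field K] (n : ℕ) : ℕ :=
  Nat.card {f : K[X] // f.Monic ∧ f.natDegree = n ∧ f.coeff (n - 1) = 0 ∧ SB f}

/-- TRANS: translations; the map `(s, f) ↦ f.comp (X - C s)`. -/
def S_TRANS : Prop := ∀ (K : Type) [Field K] [Finite K] (p : ℕ) [CharP K p] (n : ℕ),
  1 ≤ n → n + 1 < p → N K n = Nat.card K * Ncen K n

/-- DIVQ: put `d` = gcd of all `n - i` with `i < n` and `f.coeff i ≠ 0` (nonempty as `X ^ n` is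
not in the set for `n ≥ 2`); `Kˣ` acts freely on the polynomials with a given `d` by
`coeff i ↦ u ^ ((n - i) / d) * coeff i`, and over the algebraic closure this is
`f ↦ l ^ n * f (t / l)` with `l ^ d = u`, so it preserves `SB`. -/
def S_DIVQ : Prop := ∀ (K : Type) [Field K] [Finite K] (p : ℕ) [CharP K p] (n : ℕ),
  2 ≤ n → n + 1 < p → (Nat.card K - 1) ∣ Ncen K n

/-- SMALL: degrees one and two (`f = X`, and `f = X ^ 2 + C d` with `d ≠ 0`). -/
def S_SMALL : Prop := ∀ (K : Type) [Field K] [Finite K] (p : ℕ) [CharP K p],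
  (2 < p → Ncen K 1 = 1) ∧ (3 < p → Ncen K 2 = Nat.card K - 1)

/-- THREEA: `f = X ^ 3 + b X + c` is in the set if and only if `4 b ^ 3 + 27 c ^ 2 ≠ 0` and
`c ≠ 0` (two roots `r ≠ s` with the same value exist iff the third root is their middle). -/
def S_THREEA : Prop := ∀ (K : Type) [Field K] [Finite K] (p : ℕ) [CharP K p], 4 < p →
  ∀ b c : K, SB (X ^ 3 + C b * X + C c : K[X]) ↔ (4 * b ^ 3 + 27 * c ^ 2 ≠ 0 ∧ c ≠ 0)

/-- THREEB: the count for degree three from THREEA. Solutions of `4 b ^ 3 + 27 c ^ 2 = 0` are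
`(-3 u ^ 2, 2 u ^ 3)`. -/
def S_THREEB : Prop := S_THREEA → ∀ (K : Type) [Field K] [Finite K] (p : ℕ) [CharP K p], 4 < p →
  Ncen K 3 = (Nat.card K - 1) ^ 2

/-- A double root of the quartic, in a field `L`. -/
def Dbl {L : Type} [Field L] (b c d : L) : Prop :=
  ∃ r : L, r ^ 4 + b * r ^ 2 + c * r + d = 0 ∧ 4 * r ^ 3 + 2 * b * r + c = 0

/-- Two roots with the same value of the antiderivative, in a field `L`. -/
def Col {L : Type} [Field L] (b c d : L) : Prop :=
  ∃ r s : L, r ≠ s ∧ r ^ 4 + b * r ^ 2 + c * r + d = 0 ∧ s ^ 4 + b * s ^ 2 + c * s + d = 0 ∧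
    r ^ 5 / 5 + b * r ^ 3 / 3 + c * r ^ 2 / 2 + d * r =
      s ^ 5 / 5 + b * s ^ 3 / 3 + c * s ^ 2 / 2 + d * s

/-- The parametrisation of the quartics with a double root. -/
def Psi {L : Type} [Field L] (u w b c d : L) : Prop :=
  b = w - 3 * u ^ 2 ∧ c = 2 * u ^ 3 - 2 * u * w ∧ d = u ^ 2 * w

/-- The parametrisation of the quartics with two critical points of the same value. -/
def Phi {L : Type} [Field L] (m e b c d : L) : Prop :=
  b = -6 * (m ^ 2 + e) ∧ c = 8 * m * (m ^ 2 - e) ∧ d = -(m ^ 2 - 5 * e) * (3 * m ^ 2 + e)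

/-- The conditions on the parameters. -/
def Val {L : Type} [Field L] (m e : L) : Prop := e ≠ 0 ∧ e ≠ -4 * m ^ 2 ∧ e ≠ 5 * m ^ 2

/-- COL: over an algebraically closed field. `m = (r + s) / 2`, `5 e = ((r - s) / 2) ^ 2`; the
quartic is `((t - m) ^ 2 - 5 e) (t ^ 2 + 2 m t - (3 m ^ 2 + e))`; for `e = -4 m ^ 2` the double
root is `-m`, for `e = 5 m ^ 2` it is `-4 m`. -/
def S_COL : Prop := ∀ (L : Type) [Field L] [IsAlgClosed L], (2 : L) ≠ 0 → (3 : L) ≠ 0 →
  (5 : L) ≠ 0 → ∀ b c d : L,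
  (¬ Dbl b c d ∧ Col b c d) ↔ ∃ m e : L, Val m e ∧ Phi m e b c d

/-- INJ: uniqueness of the parameters. -/
def S_INJ : Prop := ∀ (L : Type) [Field L], (2 : L) ≠ 0 → (3 : L) ≠ 0 → (5 : L) ≠ 0 →
  (∀ m e m' e' b c d : L, Phi m e b c d → Phi m' e' b c d →
    (m = m' ∧ e = e') ∨ (m' = -m ∧ e = m ^ 2 ∧ e' = m ^ 2)) ∧
  (∀ u w u' w' b c d : L, Psi u w b c d → Psi u' w' b c d →
    (u = u' ∧ w = w') ∨ (u' = -u ∧ w = u ^ 2 ∧ w' = u ^ 2))

/-- FIX: the fixed points of the Frobenius power. -/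
def S_FIX : Prop := ∀ (K : Type) [Field K] [Finite K] (x : AlgebraicClosure K),
  x ^ Nat.card K = x → ∃ y : K, algebraMap K (AlgebraicClosure K) y = x

/-- DESD: the double root quartics over `K` (Frobenius `x ↦ x ^ Nat.card K` applied to the
double root, uses `INJ` and `FIX`; `Psi r (b + 3 r ^ 2)` for a double root `r`). -/
def S_DESD : Prop := S_INJ → S_FIX → ∀ (K : Type) [Field K] [Finite K] (p : ℕ) [CharP K p],
  5 < p → ∀ b c d : K,
  Dbl (algebraMap K (AlgebraicClosure K) b) (algebraMap K (AlgebraicClosure K) c)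
      (algebraMap K (AlgebraicClosure K) d) ↔
    (∃ u w : K, (w ≠ u ^ 2 ∨ u = 0) ∧ Psi u w b c d) ∨
    (∃ e : K, e ≠ 0 ∧ b = -2 * e ∧ c = 0 ∧ d = e ^ 2)

/-- DESC: the quartics with simple roots and two roots of the same value, over `K` (the same
argument; `m ^ 2 = e` with `m` not in `K` gives the second family). -/
def S_DESC : Prop := S_COL → S_INJ → S_FIX →
  ∀ (K : Type) [Field K] [Finite K] (p : ℕ) [CharP K p], 5 < p → ∀ b c d : K,
  (¬ Dbl (algebraMap K (AlgebraicClosure K) b) (algebraMap K (AlgebraicClosure K) c)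
      (algebraMap K (AlgebraicClosure K) d) ∧
    Col (algebraMap K (AlgebraicClosure K) b) (algebraMap K (AlgebraicClosure K) c)
      (algebraMap K (AlgebraicClosure K) d)) ↔
    (∃ m e : K, Val m e ∧ e ≠ m ^ 2 ∧ Phi m e b c d) ∨
    (∃ e : K, e ≠ 0 ∧ b = -12 * e ∧ c = 0 ∧ d = 16 * e ^ 2)

/-- CNTP: the numbers of parameters. -/
def S_CNTP : Prop := ∀ (K : Type) [Field K] [Finite K] (p : ℕ) [CharP K p], 5 < p →
  Nat.card {x : K × K // Val x.1 x.2 ∧ x.2 ≠ x.1 ^ 2} = (Nat.card K - 1) * (Nat.card K - 3) ∧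
  Nat.card {x : K × K // x.2 ≠ x.1 ^ 2 ∨ x.1 = 0} + (Nat.card K - 1) = Nat.card K ^ 2

/-- CNTF: the count of the four families in `K ^ 3`; `P` is the predicate that separates the
first two families from the last two. -/
def S_CNTF : Prop := S_CNTP → S_INJ → ∀ (K : Type) [Field K] [Finite K] (p : ℕ) [CharP K p],
  5 < p → ∀ P : K → K → K → Prop,
  (∀ b c d : K, P b c d ↔ (∃ u w : K, (w ≠ u ^ 2 ∨ u = 0) ∧ Psi u w b c d) ∨
    (∃ e : K, e ≠ 0 ∧ b = -2 * e ∧ c = 0 ∧ d = e ^ 2)) →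
  ∀ Q : K → K → K → Prop,
  (∀ b c d : K, (¬ P b c d ∧ Q b c d) ↔ (∃ m e : K, Val m e ∧ e ≠ m ^ 2 ∧ Phi m e b c d) ∨
    (∃ e : K, e ≠ 0 ∧ b = -12 * e ∧ c = 0 ∧ d = 16 * e ^ 2)) →
  Nat.card {x : K × K × K // ¬ P x.1 x.2.1 x.2.2 ∧ ¬ Q x.1 x.2.1 x.2.2} =
    (Nat.card K - 1) * (Nat.card K ^ 2 - Nat.card K + 2)

/-- BRG: the bridge from polynomials to triples. -/
def S_BRG : Prop := ∀ (K : Type) [Field K] [Finite K] (p : ℕ) [CharP K p], 5 < p →
  Ncen K 4 = Nat.card {x : K × K × K //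
    ¬ Dbl (algebraMap K (AlgebraicClosure K) x.1) (algebraMap K (AlgebraicClosure K) x.2.1)
        (algebraMap K (AlgebraicClosure K) x.2.2) ∧
    ¬ Col (algebraMap K (AlgebraicClosure K) x.1) (algebraMap K (AlgebraicClosure K) x.2.1)
        (algebraMap K (AlgebraicClosure K) x.2.2)}

end Pool.Agent.L7h10.AB
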