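import Pool.Agent.L7h10.AB.Stm
import Pool.Agent.L7h56.AB.Trans

/-!
Second stage of project AB: an upper bound for all degrees `n ≥ 7`. Statements of the parts.
-/

namespace Pool.Agent.L7h10.AB

open Polynomial

/-- The monic polynomials of degree `m`. -/
def Mon (K : Type) [Field K] (m : ℕ) : Type := {f : K[X] // f.Monic ∧ f.natDegree = m}

/-- CARD. -/
def S_CARD : Prop := ∀ (K : Type) [Field K] [Finite K] (m : ℕ),
  Finite (Mon K m) ∧ Nat.card (Mon K m) = Nat.card K ^ m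

/-- RES: monic polynomials of degree `m` in a residue class modulo `u`. -/
def S_RES : Prop := ∀ (K : Type) [Field K] [Finite K] (m : ℕ) (u r : K[X]), u.Monic →
  u.natDegree ≤ m → Nat.card {h : Mon K m // u ∣ h.1 - r} = Nat.card K ^ (m - u.natDegree)

/-- IMG. -/
def S_IMG : Prop := ∀ (D E : Type) [Finite D] [Finite E] (φ : D → E),
  Nat.card D ≤ Nat.card (Set.range φ) + Nat.card {x : D × D // x.1 ≠ x.2 ∧ φ x.1 = φ x.2}

/-- BADA: a double root in `K`. -/
def S_BADA : Prop := ∀ (K : Type) [Field K] (b : K) (k : K[X]), ¬ SB ((X - C b) ^ 2 * k)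

/-- BADB: `prim f` and `C (n + 1)⁻¹ * (g ^ 2 * h)` differ by a constant (see `const_of_deriv`,
`deriv_prim` in L7h56/AB/Trans.lean), so two different roots of `g` have the same value; if `g` has
a double root `a` in the algebraic closure, `(X - a) ^ 3` divides `f`. -/
def S_BADB : Prop := ∀ (K : Type) [Field K] (p : ℕ) [CharP K p] (n : ℕ), 3 ≤ n → n + 1 < p →
  ∀ g h : K[X], g.Monic → g.natDegree = 2 → h.Monic → h.natDegree = n - 3 →
  (C ((n : K) + 1)⁻¹ * derivative (g ^ 2 * h)).Monic ∧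
  (C ((n : K) + 1)⁻¹ * derivative (g ^ 2 * h)).natDegree = n ∧
  ¬ SB (C ((n : K) + 1)⁻¹ * derivative (g ^ 2 * h))

/-- CA: `b ≠ b'`, both squares divide, so the pair is given by `b`, `b'` and a monic polynomial of
degree `n - 4`. -/
def S_CA : Prop := S_CARD → ∀ (K : Type) [Field K] [Finite K] (n : ℕ), 4 ≤ n →
  Nat.card {x : (K × Mon K (n - 2)) × (K × Mon K (n - 2)) // x.1 ≠ x.2 ∧
    (X - C x.1.1) ^ 2 * x.1.2.1 = (X - C x.2.1) ^ 2 * x.2.2.1} ≤ Nat.card K ^ (n - 2)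

/-- CB: if `(X - b) ^ 2` divides the derivative of `g ^ 2 h` then `(X - b) ^ 3` divides
`g ^ 2 h - c` with `c` the value at `b`. If `g b ≠ 0`: for given `b, g, c` the residue of `h` modulo
`(X - b) ^ 3` is given (RES): at most `q ^ (1 + 2 + 1 + (n - 6))`. If `g b = 0` then `c = 0`, and
`g = (X - b) ^ 2` (at most `q * q ^ (n - 3)`) or `h b = 0` (at most `q * q * q ^ (n - 4)`). -/
def S_CB : Prop := S_CARD → S_RES → ∀ (K : Type) [Field K] [Finite K] (p : ℕ) [CharP K p] (n : ℕ),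
  6 ≤ n → n + 1 < p →
  Nat.card {x : (K × Mon K (n - 2)) × (Mon K 2 × Mon K (n - 3)) //
    (X - C x.1.1) ^ 2 * x.1.2.1 = C ((n : K) + 1)⁻¹ * derivative (x.2.1.1 ^ 2 * x.2.2.1)} ≤
    3 * Nat.card K ^ (n - 2)

/-- CC: `g ^ 2 h - g' ^ 2 h' = c` is a constant; `g = g'` gives `h = h'`. If `g, g'` are coprime:
for given `g, g', c` the residue of `h` modulo `g' ^ 2` is given (RES): at most
`q ^ (2 + 2 + 1 + (n - 7))`, and `h'` is determined. Else `g = (X - b) l`, `g' = (X - b) l'`, `c = 0`,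
`l ≠ l'`, and `l' ^ 2` divides `h`: at most `q ^ (3 + (n - 5))`. -/
def S_CC : Prop := S_CARD → S_RES → ∀ (K : Type) [Field K] [Finite K] (p : ℕ) [CharP K p] (n : ℕ),
  7 ≤ n → n + 1 < p →
  Nat.card {x : (Mon K 2 × Mon K (n - 3)) × (Mon K 2 × Mon K (n - 3)) // x.1 ≠ x.2 ∧
    derivative (x.1.1.1 ^ 2 * x.1.2.1) = derivative (x.2.1.1 ^ 2 * x.2.2.1)} ≤
    2 * Nat.card K ^ (n - 2)

/-- UPP: the assembly, with `D = (K × Mon (n - 2)) ⊕ (Mon 2 × Mon (n - 3))` of `2 q ^ (n - 1)`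
elements and its map to the monic polynomials of degree `n` (IMG); all values are not `SB`. -/
def S_UPP : Prop := S_CARD → S_IMG → S_BADA → S_BADB → S_CA → S_CB → S_CC → S_RES →
  ∀ (K : Type) [Field K] [Finite K] (p : ℕ) [CharP K p] (n : ℕ), 7 ≤ n → n + 1 < p →
  N K n + 2 * Nat.card K ^ (n - 1) ≤ Nat.card K ^ n + 9 * Nat.card K ^ (n - 2)

end Pool.Agent.L7h10.AB
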