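import Pool.Agent.L7h10.AB.Stm2

/-!
Part UPP of project AB: the assembly of the upper bound.
-/

namespace Pool.Agent.L7h10.AB

open Polynomial

theorem card_le_of_cover {T S Z : Type} [Finite S] (P : Z → Prop) (g : S → Z)
    (h : ∀ z, P z → ∃ s, g s = z) (e : T ≃ {z : Z // P z}) : Nat.card T ≤ Nat.card S := by
  have h1 : ∀ t : T, ∃ s, g s = (e t).1 := fun t => h _ (e t).2
  choose F hF using h1
  apply Nat.card_le_card_of_injective F
  intro t t' htt
  apply e.injective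
  apply Subtype.ext
  rw [← hF t, ← hF t', htt]

theorem s_UPP : S_UPP := by
  intro hCARD hIMG hBA hBB hCA hCB hCC hRES K _ _ p _ n hn hp
  have hn1 : ((n : K) + 1) ≠ 0 := by
    have := Pool.Agent.L7h56.AB.cast_ne (K := K) (p := p) (i := n + 1) (by omega) (by omega)
    push_cast at this
    exact this
  have hfin : ∀ m, Finite (Mon K m) := fun m => (hCARD K m).1
  have hcard : ∀ m, Nat.card (Mon K m) = Nat.card K ^ m := fun m => (hCARD K m).2
  have := hfin (n - 2)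
  have := hfin 2
  have := hfin (n - 3)
  have := hfin n
  -- the map
  let φ : (K × Mon K (n - 2)) ⊕ (Mon K 2 × Mon K (n - 3)) → Mon K n :=
    Sum.elim
      (fun x => ⟨(X - C x.1) ^ 2 * x.2.1, ((monic_X_sub_C x.1).pow 2).mul x.2.2.1, by
        rw [((monic_X_sub_C x.1).pow 2).natDegree_mul x.2.2.1, x.2.2.2, natDegree_pow,
          natDegree_X_sub_C]
        omega⟩)
      (fun x => ⟨C ((n : K) + 1)⁻¹ * derivative (x.1.1 ^ 2 * x.2.1),
        (hBB K p n (by omega) hp x.1.1 x.2.1 x.1.2.1 x.1.2.2 x.2.2.1 x.2.2.2).1,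
        (hBB K p n (by omega) hp x.1.1 x.2.1 x.1.2.1 x.1.2.2 x.2.2.1 x.2.2.2).2.1⟩)
  have hφ : ∀ x, ¬ SB (φ x).1 := by
    rintro (x | x)
    · exact hBA K x.1 x.2.1
    · exact (hBB K p n (by omega) hp x.1.1 x.2.1 x.1.2.1 x.1.2.2 x.2.2.1 x.2.2.2).2.2
  have hI := hIMG _ _ φ
  -- the domain
  have hD : Nat.card ((K × Mon K (n - 2)) ⊕ (Mon K 2 × Mon K (n - 3))) =
      2 * Nat.card K ^ (n - 1) := by
    rw [Nat.card_sum, Nat.card_prod, Nat.card_prod, hcard, hcard, hcard, ← pow_succ', ← pow_add,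
      two_mul]
    congr 2 <;> omega
  -- the pairs
  have hPA := hCA hCARD K n (by omega)
  have hPB := hCB hCARD hRES K p n (by omega) hp
  have hPC := hCC hCARD hRES K p n (by omega) hp
  have hpairs : Nat.card {x : ((K × Mon K (n - 2)) ⊕ (Mon K 2 × Mon K (n - 3))) ×
      ((K × Mon K (n - 2)) ⊕ (Mon K 2 × Mon K (n - 3))) // x.1 ≠ x.2 ∧ φ x.1 = φ x.2} ≤
      9 * Nat.card K ^ (n - 2) := by
    let PA := {x : (K × Mon K (n - 2)) × (K × Mon K (n - 2)) // x.1 ≠ x.2 ∧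
      (X - C x.1.1) ^ 2 * x.1.2.1 = (X - C x.2.1) ^ 2 * x.2.2.1}
    let PB := {x : (K × Mon K (n - 2)) × (Mon K 2 × Mon K (n - 3)) //
      (X - C x.1.1) ^ 2 * x.1.2.1 = C ((n : K) + 1)⁻¹ * derivative (x.2.1.1 ^ 2 * x.2.2.1)}
    let PC := {x : (Mon K 2 × Mon K (n - 3)) × (Mon K 2 × Mon K (n - 3)) // x.1 ≠ x.2 ∧
      derivative (x.1.1.1 ^ 2 * x.1.2.1) = derivative (x.2.1.1 ^ 2 * x.2.2.1)}
    let g : (PA ⊕ PB) ⊕ (PB ⊕ PC) → ((K × Mon K (n - 2)) ⊕ (Mon K 2 × Mon K (n - 3))) ×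
      ((K × Mon K (n - 2)) ⊕ (Mon K 2 × Mon K (n - 3))) :=
      Sum.elim
        (Sum.elim (fun x => (Sum.inl x.1.1, Sum.inl x.1.2))
          (fun x => (Sum.inl x.1.1, Sum.inr x.1.2)))
        (Sum.elim (fun x => (Sum.inr x.1.2, Sum.inl x.1.1))
          (fun x => (Sum.inr x.1.1, Sum.inr x.1.2)))
    have key := card_le_of_cover
      (T := {x : ((K × Mon K (n - 2)) ⊕ (Mon K 2 × Mon K (n - 3))) ×
        ((K × Mon K (n - 2)) ⊕ (Mon K 2 × Mon K (n - 3))) // x.1 ≠ x.2 ∧ φ x.1 = φ x.2})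
      (fun x => x.1 ≠ x.2 ∧ φ x.1 = φ x.2) g ?_ (Equiv.refl _)
    · have hS : Nat.card ((PA ⊕ PB) ⊕ (PB ⊕ PC)) =
          Nat.card PA + Nat.card PB + (Nat.card PB + Nat.card PC) := by
        rw [Nat.card_sum, Nat.card_sum, Nat.card_sum]
      rw [hS] at key
      have h1 : Nat.card PA ≤ Nat.card K ^ (n - 2) := hPA
      have h2 : Nat.card PB ≤ 3 * Nat.card K ^ (n - 2) := hPB
      have h3 : Nat.card PC ≤ 2 * Nat.card K ^ (n - 2) := hPC
      omega
    · rintro ⟨a | a, b | b⟩ ⟨hne, heq⟩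
      · exact ⟨Sum.inl (Sum.inl ⟨(a, b), fun h => hne (by
          have h' : a = b := h
          rw [h']), congrArg Subtype.val heq⟩), rfl⟩
      · exact ⟨Sum.inl (Sum.inr ⟨(a, b), congrArg Subtype.val heq⟩), rfl⟩
      · exact ⟨Sum.inr (Sum.inl ⟨(b, a), (congrArg Subtype.val heq).symm⟩), rfl⟩
      · refine ⟨Sum.inr (Sum.inr ⟨(a, b), fun h => hne (by
          have h' : a = b := h
          rw [h']), ?_⟩), rfl⟩
        have h1 : C ((n : K) + 1)⁻¹ * derivative (a.1.1 ^ 2 * a.2.1) =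
            C ((n : K) + 1)⁻¹ * derivative (b.1.1 ^ 2 * b.2.1) := congrArg Subtype.val heq
        exact mul_left_cancel₀ (by
          rw [Ne, C_eq_zero]
          exact inv_ne_zero hn1) h1
  -- the bad ones
  have hR : Nat.card (Set.range φ) ≤ Nat.card {f : Mon K n // ¬ SB f.1} := by
    apply Nat.card_le_card_of_injective
      (fun y : Set.range φ => (⟨y.1, by
        obtain ⟨x, hx⟩ := y.2
        rw [← hx]
        exact hφ x⟩ : {f : Mon K n // ¬ SB f.1}))
    intro y y' h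
    apply Subtype.ext
    exact congrArg (fun z : {f : Mon K n // ¬ SB f.1} => z.1) h
  have hN : N K n = Nat.card {f : Mon K n // SB f.1} := by
    unfold N
    apply Nat.card_congr
    exact
      { toFun := fun f => ⟨⟨f.1, f.2.1, f.2.2.1⟩, f.2.2.2⟩
        invFun := fun f => ⟨f.1.1, f.1.2.1, f.1.2.2, f.2⟩
        left_inv := fun f => rfl
        right_inv := fun f => rfl }
  have hsplit : Nat.card {f : Mon K n // SB f.1} + Nat.card {f : Mon K n // ¬ SB f.1} =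
      Nat.card K ^ n := by
    classical
    rw [← hcard n, ← Nat.card_sum]
    exact Nat.card_congr (Equiv.sumCompl (fun f : Mon K n => SB f.1))
  rw [hN]
  omega

end Pool.Agent.L7h10.AB
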